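import Pool.Agent.Helper62.EF.Stmts

/-! # Row EX: independent elements of any number -/

set_option autoImplicit false

namespace Pool.Agent.Helper25.EF

open Pool.Agent.Helper62.EF

theorem ex_nsmul {G : Type} [AddCommGroup G] (φ : G →+ G) (i p : ℕ) (y : G) :
    φ^[i] (p • y) = p • φ^[i] y := by
  induction i with
  | zero => rfl
  | succ i ih => rw [Function.iterate_succ_apply', ih, Function.iterate_succ_apply', map_nsmul]

theorem ex_sub {G : Type} [AddCommGroup G] (φ : G →+ G) (i : ℕ) (y z : G) :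
    φ^[i] (y - z) = φ^[i] y - φ^[i] z := by
  induction i with
  | zero => rfl
  | succ i ih =>
    rw [Function.iterate_succ_apply', ih, Function.iterate_succ_apply',
      Function.iterate_succ_apply', map_sub]

theorem ex_it {G : Type} [AddCommGroup G] (φ : G →+ G) (i : ℕ) (y : G) (hy : y ∈ tt φ) :
    φ^[i] y ∈ tt φ := by
  have h : (Set.range fun k : ℕ => φ^[k] y).Finite := hy
  show (Set.range fun k : ℕ => φ^[k] (φ^[i] y)).Finite
  refine h.subset ?_
  rintro _ ⟨k, rfl⟩
  exact ⟨k + i, by simp only [Function.iterate_add_apply]⟩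

theorem ex_ev_sub {G : Type} [AddCommGroup G] (φ : G →+ G) (n : ℕ) (c : ℕ → ℤ) (y z : G) :
    ev φ n c (y - z) = ev φ n c y - ev φ n c z := by
  unfold ev
  rw [← Finset.sum_sub_distrib]
  exact Finset.sum_congr rfl fun i _ => by rw [ex_sub, smul_sub]

theorem ex_ev_dvd {G : Type} [AddCommGroup G] (φ : G →+ G) (p n : ℕ) (c : ℕ → ℤ) (y : G)
    (hy : p • y ∈ tt φ) (hc : ∀ i < n, (p : ℤ) ∣ c i) : ev φ n c y ∈ tt φ := by
  unfold ev
  refine sum_mem fun i hi => ?_
  obtain ⟨e, he⟩ := hc i (Finset.mem_range.1 hi)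
  have h1 : c i • φ^[i] y = e • φ^[i] (p • y) := by
    rw [he, ex_nsmul, mul_comm, mul_smul, natCast_zsmul]
  rw [h1]
  exact zsmul_mem (ex_it φ i _ hy) e

theorem ex_ev_congr {G : Type} [AddCommGroup G] (φ : G →+ G) (n : ℕ) (c c' : ℕ → ℤ) (y : G)
    (h : ∀ i < n, c i = c' i) : ev φ n c y = ev φ n c' y := by
  unfold ev
  exact Finset.sum_congr rfl fun i hi => by rw [h i (Finset.mem_range.1 hi)]

/-- extension by zero -/
def ext {N : ℕ} (d : Σ n : ℕ, (Fin (N + 1) → Fin n → ℤ)) (j : Fin (N + 1)) (i : ℕ) : ℤ :=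
  if h : i < d.1 then d.2 j ⟨i, h⟩ else 0

theorem st_EX (hTF : ST_TF) : ST_EX := by
  intro G _ φ m hm hG p hp hunc N
  induction N with
  | zero => exact ⟨Fin.elim0, fun j => j.elim0, fun n c _ j => j.elim0⟩
  | succ N ih =>
    obtain ⟨x, hx1, hx2⟩ := ih
    by_contra hcon
    push Not at hcon
    apply hunc
    have key : ∀ q : {q : G ⧸ tt φ | p • q = 0}, ∃ d : Σ n : ℕ, (Fin (N + 1) → Fin n → ℤ),
        ∃ y : G, (QuotientAddGroup.mk y : G ⧸ tt φ) = q.1 ∧ p • y ∈ tt φ ∧
        (ev φ d.1 (ext d 0) y + ∑ j : Fin N, ev φ d.1 (ext d j.succ) (x j)) ∈ tt φ ∧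
        ∃ i < d.1, ¬ (p : ℤ) ∣ ext d 0 i := by
      rintro ⟨q, hq⟩
      obtain ⟨y, rfl⟩ := QuotientAddGroup.mk_surjective q
      have hpy : p • y ∈ tt φ := by
        rw [← QuotientAddGroup.eq_zero_iff]
        exact hq
      have h1 := hcon (Fin.cons y x)
      unfold Ind at h1
      have h2 : ∀ j, p • (Fin.cons y x : Fin (N + 1) → G) j ∈ tt φ := by
        intro j
        refine Fin.cases ?_ (fun j => ?_) j
        · simpa using hpy
        · simpa using hx1 j
      have h3 : ¬ ∀ (n : ℕ) (c : Fin (N + 1) → ℕ → ℤ),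
          (∑ j, ev φ n (c j) ((Fin.cons y x : Fin (N + 1) → G) j)) ∈ tt φ →
          ∀ j, ∀ i < n, (p : ℤ) ∣ c j i := fun h => h1 ⟨h2, h⟩
      push Not at h3
      obtain ⟨n, c, hs, j, i, hi, hji⟩ := h3
      rw [Fin.sum_univ_succ] at hs
      simp only [Fin.cons_zero, Fin.cons_succ] at hs
      refine ⟨⟨n, fun j i => c j i⟩, y, rfl, hpy, ?_, ?_⟩
      · have e1 : ∀ (j : Fin (N + 1)) (w : G),
            ev φ n (ext ⟨n, fun j i => c j i⟩ j) w = ev φ n (c j) w := by
          intro j w
          refine ex_ev_congr φ n _ _ w fun i hi => ?_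
          unfold ext
          rw [dif_pos hi]
        simp only [e1]
        exact hs
      · by_contra hno
        push Not at hno
        have hno' : ∀ i < n, (p : ℤ) ∣ c 0 i := by
          intro i hi
          have := hno i hi
          unfold ext at this
          rwa [dif_pos hi] at this
        have h4 := ex_ev_dvd φ p n (c 0) y hpy hno'
        have h5 : (∑ j : Fin N, ev φ n (c j.succ) (x j)) ∈ tt φ := by
          have := sub_mem hs h4
          simpa using this
        have h6 := hx2 n (fun j => c j.succ) h5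
        refine hji ?_
        refine Fin.cases (motive := fun j => (p : ℤ) ∣ c j i) (hno' i hi) (fun j => ?_) j
        exact h6 j i hi
    choose D Y hY using key
    have hinj : Function.Injective D := by
      intro q q' h
      obtain ⟨a1, a2, a3, i, hi, a4⟩ := hY q
      obtain ⟨b1, b2, b3, -⟩ := hY q'
      rw [← h] at b3
      have h4 : ev φ (D q).1 (ext (D q) 0) (Y q - Y q') ∈ tt φ := by
        rw [ex_ev_sub]
        have := sub_mem a3 b3
        simpa using this
      have h5 : p • (Y q - Y q') ∈ tt φ := by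
        rw [smul_sub]
        exact sub_mem a2 b2
      have h6 := hTF G φ m hm hG p hp (Y q - Y q') (D q).1 (ext (D q) 0) h5 h4 ⟨i, hi, a4⟩
      apply Subtype.ext
      rw [← a1, ← b1, QuotientAddGroup.eq]
      have h7 := neg_mem h6
      rwa [neg_sub, sub_eq_neg_add] at h7
    exact hinj.countable

end Pool.Agent.Helper25.EF
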